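import Pool.Agent.H853Z.RamseyB

set_option autoImplicit false

namespace Pool.Agent.Results.MP_287fcc_lc.ANonPrimePower

open Pool.Agent.H853Z

/-- For some `n > 4` the colour algebra with `n - 1` colours has a representation on a finite set
whose number of points is not a prime power. -/
theorem result : ∃ n : ℕ, 4 < n ∧ ∃ (U : Type) (_ : Fintype U) (c : U → U → Fin (n - 1)),
    2 ≤ Fintype.card U ∧ ¬ IsPrimePow (Fintype.card U) ∧
    (∀ x y, c x y = c y x) ∧
    (∀ i : Fin (n - 1), ∃ x y, x ≠ y ∧ c x y = i) ∧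
    (∀ x y z, x ≠ y → y ≠ z → x ≠ z → ¬ (c x y = c y z ∧ c y z = c x z)) ∧
    (∀ x y, x ≠ y → ∀ j k : Fin (n - 1), ¬ (j = c x y ∧ k = c x y) →
      ∃ z, z ≠ x ∧ z ≠ y ∧ c x z = j ∧ c z y = k) := by
  refine ⟨10, by norm_num, ZMod 703, inferInstance, Ramsey.c, ?_, ?_, Ramsey.c_symm, Ramsey.c_used,
    Ramsey.c_tri, Ramsey.c_path⟩
  · rw [ZMod.card]; norm_num
  · rw [ZMod.card]; exact Ramsey.not_pp

end Pool.Agent.Results.MP_287fcc_lc.ANonPrimePower
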